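import Pool.Agent.MP_826def_gt.BE34.DegB

/-! The Brouwer degree. -/

namespace Pool.Agent.MP_826def_gt.BE34

open MeasureTheory Metric Set Filter Pool.Agent.MP_57541a_gt.H20 Pool.Agent.MP_826def_gt.MU
open scoped NNReal Topology

variable {d : ℕ}

theorem norm_sq_le (a : E d) : ‖a‖ * ‖a‖ ≤ ∑ i, a i * a i := by
  have h0 : 0 ≤ ∑ i, a i * a i := Finset.sum_nonneg fun i _ => mul_self_nonneg _
  have h : ‖a‖ ≤ √(∑ i, a i * a i) := (pi_norm_le_iff_of_nonneg (Real.sqrt_nonneg _)).2 fun i =>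
    Real.abs_le_sqrt (by
      rw [sq]
      exact Finset.single_le_sum (f := fun i => a i * a i) (fun i _ => mul_self_nonneg _)
        (Finset.mem_univ i))
  exact (mul_self_le_mul_self (norm_nonneg _) h).trans (Real.mul_self_sqrt h0).le

theorem dir_of {a v : E d} {M : ℝ} (h : 2 * (d + 1) * ‖v - a‖ ≤ ‖a‖) (hM : 4 * (d + 1) ≤ M * ‖a‖)
    (M0 : 0 ≤ M) : M • a ∈ hs v := by
  have d0 : (0 : ℝ) ≤ d := Nat.cast_nonneg _
  have n0 := norm_nonneg a
  have n1 := norm_nonneg (v - a)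
  have h1 : ∑ i, |v i| ≤ d * ‖v‖ :=
    (Finset.sum_le_sum fun i _ => norm_le_pi_norm v i).trans (by simp)
  have h2 : ‖v‖ ≤ ‖a‖ + ‖v - a‖ := norm_le_insert' v a
  have h3 : ∑ i, a i * a i - d * (‖a‖ * ‖v - a‖) ≤ ∑ i, a i * v i := by
    have h4 : ∀ i, a i * a i - ‖a‖ * ‖v - a‖ ≤ a i * v i := fun i => by
      have h5 : |a i * (v - a) i| ≤ ‖a‖ * ‖v - a‖ := by
        rw [abs_mul]
        exact mul_le_mul (norm_le_pi_norm a i) (norm_le_pi_norm (v - a) i) (abs_nonneg _) n0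
      have h6 := (abs_le.1 h5).1
      rw [Pi.sub_apply] at h6
      linarith
    refine le_trans (le_of_eq ?_) (Finset.sum_le_sum fun i _ => h4 i)
    simp [Finset.sum_sub_distrib]
  have h7 := norm_sq_le a
  have h8 : ‖a‖ * ‖a‖ / 2 ≤ ∑ i, a i * v i := by nlinarith [mul_le_mul_of_nonneg_left h n0]
  have h9 := mul_le_mul_of_nonneg_left h8 M0
  have h10 := mul_le_mul_of_nonneg_right hM n0
  change ∑ i, |v i| ≤ ∑ i, (M • a) i * v i
  simp only [Pi.smul_apply, smul_eq_mul, mul_assoc, ← Finset.mul_sum]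
  nlinarith [mul_le_mul_of_nonneg_left h2 d0, mul_nonneg d0 n1, mul_nonneg d0 n0]

theorem D0_one {f : E d → E d} {Ω : Set (E d)} {z : E d} {A : E d →L[ℝ] E d} (hf : Adm f Ω)
    (hz : z ∈ Ω) (h0 : ∀ x ∈ Ω, f x = 0 ↔ x = z) (hA : HasFDerivAt f A z) (hd : A.det ≠ 0) :
    D0 f Ω = SignType.sign A.det * ∫ y : E d, Ga y := by
  have d0 : (0 : ℝ) < d + 1 := by positivity
  obtain ⟨C, C0, hC⟩ := (A : E d →ₗ[ℝ] E d).exists_antilipschitzWith
    ((LinearMap.isUnit_iff_ker_eq_bot _).1 ((LinearMap.isUnit_iff_isUnit_det _).2 hd.isUnit))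
  have C0' : (0 : ℝ) < C := C0
  have hC' : ∀ v, ‖v‖ ≤ C * ‖A v‖ := fun v => by simpa using hC.le_mul_dist v 0
  have h1 := hA.isLittleO.def (c := (2 * (d + 1) * C)⁻¹) (by positivity)
  obtain ⟨ρ, ρ0, hρ⟩ := nhds_basis_closedBall.mem_iff.1 (inter_mem (hf.1.mem_nhds hz) h1)
  set M : ℝ := 8 * (d + 1) * C / ρ with hM
  have M0 : 0 < M := by positivity
  have far : ∀ x, x ∉ closedBall z (ρ / 2) → 4 * (d + 1) ≤ M * ‖A (x - z)‖ := fun x hx => by
    have a1 : ρ / 2 < ‖x - z‖ := by simpa [dist_eq_norm] using hx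
    have a2 := hC' (x - z)
    rw [hM, div_mul_eq_mul_div, le_div_iff₀ ρ0]
    nlinarith
  have gd : Gd fun x => (M • A) (x - z) := ⟨(M • A).contDiff.comp (contDiff_id.sub contDiff_const),
    _, (M • A).lipschitz.comp (LipschitzWith.id.sub (LipschitzWith.const z))⟩
  have ad : Ad f Ω (ball z ρ) (closedBall z (ρ / 2)) fun x => (M • A) (x - z) := by
    refine ⟨isOpen_ball, (isCompact_closedBall z ρ).closure_of_subset ball_subset_closedBall,
      fun x hx => (hρ (closure_ball_subset_closedBall hx)).1, isClosed_closedBall,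
      closedBall_subset_ball (half_lt_self ρ0), fun x hx e => ?_, gd, fun x hx hk => ?_⟩
    · rw [(h0 x hx).1 e]
      exact mem_closedBall_self (half_pos ρ0).le
    · have a1 : ‖f x - f z - A (x - z)‖ ≤ (2 * (d + 1) * C : ℝ)⁻¹ * ‖x - z‖ :=
        (hρ (ball_subset_closedBall hx)).2
      rw [(h0 z hz).2 rfl, sub_zero, le_inv_mul_iff₀ (by positivity)] at a1
      refine dir_of (a := A (x - z)) (le_of_mul_le_mul_left ?_ C0') (far x hk) M0.le
      linarith [hC' (x - z)]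
  have hdet : (M • A).det = M ^ d * A.det := by
    have := LinearMap.det_smul M (A : E d →ₗ[ℝ] E d)
    rwa [Module.finrank_fin_fun] at this
  rw [D0_eq hf ad, ← dI_sub MeasurableSet.univ (subset_univ (ball z ρ)) fun x _ hx => Ga_zero ?_,
    dI_aff _ (by rw [hdet]; positivity), hdet, sign_mul, sign_pos (pow_pos M0 d), one_mul]
  rw [smul_apply, norm_smul, Real.norm_of_nonneg M0.le]
  have := far x fun h => hx (closedBall_subset_ball (half_lt_self ρ0) h)
  have d1 : (0 : ℝ) ≤ d := Nat.cast_nonneg _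
  linarith

theorem sDeg : S_Deg := by
  intro V _ _ _
  let e : V ≃L[ℝ] E (Module.finrank ℝ V) := (Module.finBasis ℝ V).equivFun.toContinuousLinearEquiv
  have c0 := (Ga_pos (d := Module.finrank ℝ V)).ne'
  have adm : ∀ {f : V → V} {Ω : Set V}, Adm f Ω →
      Adm (fun x => e (f (e.symm x))) (e.symm ⁻¹' Ω) := fun {f Ω} h => by
    refine ⟨h.1.preimage e.symm.continuous, e.continuous.comp_continuousOn
      (h.2.1.comp e.symm.continuous.continuousOn fun x hx => hx), ?_⟩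
    have := e.symm.toHomeomorph.isCompact_preimage.2 h.2.2
    simp only [EmbeddingLike.map_eq_zero_iff]
    exact this
  refine ⟨fun f Ω => D0 (fun x => e (f (e.symm x))) (e.symm ⁻¹' Ω) /
    ∫ y : E (Module.finrank ℝ V), Ga y, ?_, ?_, ?_, ?_, ?_⟩
  · intro G O hO hG hZ
    let φ : ℝ × E (Module.finrank ℝ V) ≃ₜ ℝ × V := (Homeomorph.refl ℝ).prodCongr e.symm.toHomeomorph
    have := D0_hom (fun w => e (G (φ w))) (φ ⁻¹' O) (hO.preimage φ.continuous)
      (e.continuous.comp_continuousOn (hG.comp φ.continuous.continuousOn fun x hx => hx)) (by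
        have := φ.isCompact_preimage.2 hZ
        simp only [EmbeddingLike.map_eq_zero_iff]
        exact this)
    exact congrArg (· / _) this
  · intro f g Ω _ h
    exact congrArg (· / _) (D0_congr fun x hx => congrArg e (h hx))
  · intro f Ω Ω₁ Ω₂ h o₁ o₂ hd s₁ s₂ hz
    rw [← add_div]
    exact congrArg (· / _) (D0_add (adm h) (o₁.preimage e.symm.continuous)
      (o₂.preimage e.symm.continuous) (hd.preimage _) (preimage_mono s₁) (preimage_mono s₂)
      fun x hx h0 => hz _ hx (e.map_eq_zero_iff.1 h0))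
  · intro f Ω h h0
    exact div_eq_zero_iff.2 (Or.inl (D0_zero (adm h) fun x hx h1 =>
      h0 _ hx (e.map_eq_zero_iff.1 h1)))
  · intro f Ω z A h hz h0 hA hd
    have hdet : (e.toContinuousLinearMap.comp (A.comp e.symm.toContinuousLinearMap)).det = A.det :=
      LinearMap.det_conj (A : V →ₗ[ℝ] V) e.toLinearEquiv
    have hA' : HasFDerivAt f A (e.symm (e z)) := by rwa [e.symm_apply_apply]
    refine (div_eq_iff c0).2 ?_
    rw [← hdet]
    exact D0_one (z := e z) (adm h) (by simpa using hz)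
      (fun x hx => by rw [e.map_eq_zero_iff, h0 _ hx, e.symm_apply_eq])
      (e.hasFDerivAt.comp _ (hA'.comp _ e.symm.hasFDerivAt)) (hdet ▸ hd)

end Pool.Agent.MP_826def_gt.BE34
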