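import Pool.Agent.MP_57541a_gt.H14.Hom
import Pool.Agent.MP_57541a_gt.H19.Null

/-! The degree integral of a smooth map that points in the direction of a continuous map. -/

namespace Pool.Agent.MP_826def_gt.BE34

open MeasureTheory Metric Set Filter Pool.Agent.MP_57541a_gt.H20
open scoped NNReal Topology Manifold ContDiff

variable {d : ℕ}

/-- The hat function. -/
noncomputable def ga (d : ℕ) : Fin d → ℝ → ℝ := fun _ t => max 0 (1 - |t|)

theorem ga_zero {i : Fin d} {t : ℝ} (h : 1 ≤ |t|) : ga d i t = 0 := max_eq_left (by linarith)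

theorem dens : Dens (ga d) := fun i => by
  refine ⟨by unfold ga; fun_prop, HasCompactSupport.intro (isCompact_Icc (a := -1) (b := 1)) ?_⟩
  intro t ht
  refine ga_zero (le_of_not_gt fun h => ht ?_)
  exact ⟨(abs_lt.1 h).1.le, (abs_lt.1 h).2.le⟩

/-- The product of the hat functions. -/
noncomputable def Ga (y : E d) : ℝ := ∏ i, ga d i (y i)

theorem Ga_cont : Continuous (Ga : E d → ℝ) :=
  continuous_finsetProd _ fun i _ => (dens i).1.comp (continuous_apply i)

theorem Ga_zero {y : E d} (h : 1 ≤ ‖y‖) : Ga y = 0 := by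
  by_contra h0
  have h1 : ∀ i, ‖y i‖ < 1 := fun i => lt_of_not_ge fun hi =>
    h0 (Finset.prod_eq_zero (Finset.mem_univ i) (ga_zero hi))
  exact absurd ((pi_norm_lt_iff one_pos).2 h1) (not_lt.2 h)

theorem Ga_pos : 0 < ∫ y : E d, Ga y := by
  refine Ga_cont.integral_pos_of_hasCompactSupport_nonneg_nonzero (x := 0)
    (HasCompactSupport.intro (isCompact_closedBall 0 1) fun y hy => ?_)
    (fun y => Finset.prod_nonneg fun i _ => le_max_left _ _) (by simp [Ga, ga])
  exact Ga_zero (le_of_lt (by simpa using hy))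

/-- The half space in the direction `v`. -/
def hs (v : E d) : Set (E d) := {y | ∑ i, |v i| ≤ ∑ i, y i * v i}

theorem comb (v x y : E d) (a b : ℝ) :
    ∑ i, (a • x + b • y) i * v i = a * ∑ i, x i * v i + b * ∑ i, y i * v i := by
  simp only [Pi.add_apply, Pi.smul_apply, smul_eq_mul, Finset.mul_sum, ← Finset.sum_add_distrib]
  exact Finset.sum_congr rfl fun i _ => by ring

theorem hs_conv (v : E d) : Convex ℝ (hs v) := by
  intro x hx y hy a b ha hb hab
  simp only [hs, mem_ofPred_eq] at hx hy ⊢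
  rw [comb]
  have h1 := mul_le_mul_of_nonneg_left hx ha
  have h2 := mul_le_mul_of_nonneg_left hy hb
  have h3 : (a + b) * ∑ i, |v i| = ∑ i, |v i| := by rw [hab, one_mul]
  linarith

theorem hs_zero {v y : E d} (hv : v ≠ 0) (h : y ∈ hs v) : Ga y = 0 := by
  by_contra h0
  have h1 : ∀ i, |y i| < 1 := fun i => lt_of_not_ge fun hi =>
    h0 (Finset.prod_eq_zero (Finset.mem_univ i) (ga_zero hi))
  obtain ⟨j, hj⟩ := Function.ne_iff.1 hv
  have h2 : ∀ i, y i * v i ≤ |y i| * |v i| := fun i => by rw [← abs_mul]; exact le_abs_self _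
  refine absurd h (not_le.2 (Finset.sum_lt_sum (fun i _ => (h2 i).trans ?_)
    ⟨j, Finset.mem_univ _, (h2 j).trans_lt ?_⟩))
  · exact mul_le_of_le_one_left (abs_nonneg _) (h1 i).le
  · exact mul_lt_of_lt_one_left (abs_pos.2 hj) (h1 j)

/-- Smooth and Lipschitz. -/
def Gd (g : E d → E d) : Prop := ContDiff ℝ 1 g ∧ ∃ L, LipschitzWith L g

theorem sq_pos {v : E d} (hv : v ≠ 0) : 0 < ∑ i, v i * v i := by
  obtain ⟨j, hj⟩ := Function.ne_iff.1 hv
  exact Finset.sum_pos' (fun i _ => mul_self_nonneg _) ⟨j, Finset.mem_univ _, mul_self_pos.2 hj⟩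

theorem ex_g {f : E d → E d} {N : Set (E d)} (hN : IsCompact N) (hf : ContinuousOn f N)
    (h0 : ∀ x ∈ N, f x ≠ 0) : ∃ g, Gd g ∧ ∀ x ∈ N, ∑ i, |f x i| < ∑ i, g x i * f x i := by
  obtain ⟨R, hR⟩ := hN.isBounded.subset_ball 0
  let t : E d → Set (E d) := fun x =>
    {y | (x ∈ N → ∑ i, |f x i| < ∑ i, y i * f x i) ∧ (R + 1 ≤ ‖x‖ → y = 0)}
  have ht : ∀ x, Convex ℝ (t x) := by
    intro x y hy z hz a b ha hb hab
    refine ⟨fun hx => ?_, fun hx => by rw [hy.2 hx, hz.2 hx, smul_zero, smul_zero, add_zero]⟩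
    rw [comb]
    have h3 : (a + b) * ∑ i, |f x i| = ∑ i, |f x i| := by rw [hab, one_mul]
    rcases ha.eq_or_lt with rfl | ha'
    · rw [zero_add] at hab
      rw [hab, zero_mul, zero_add, one_mul]
      exact hz.1 hx
    · have h1 := mul_lt_mul_of_pos_left (hy.1 hx) ha'
      have h2 := mul_le_mul_of_nonneg_left (hz.1 hx).le hb
      linarith
  obtain ⟨g, hg⟩ := exists_contMDiffMap_forall_mem_convex_of_local_const (n := 1) 𝓘(ℝ, E d) ht
    fun x => by
      by_cases hx : x ∈ N
      · have hp := sq_pos (h0 x hx)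
        refine ⟨((∑ i, |f x i| + 1) / ∑ i, f x i * f x i) • f x, ?_⟩
        have hc : ContinuousWithinAt (fun y => ∑ i,
            (((∑ i, |f x i| + 1) / ∑ i, f x i * f x i) • f x) i * f y i - ∑ i, |f y i|) N x := by
          have h1 : ∀ i, ContinuousWithinAt (fun y => f y i) N x := fun i =>
            (continuous_apply i).continuousAt.comp_continuousWithinAt (hf x hx)
          exact (tendsto_finsetSum _ fun i _ => (h1 i).const_mul _).sub
            (tendsto_finsetSum _ fun i _ => (h1 i).abs)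
        have h2 : 0 < ∑ i, (((∑ i, |f x i| + 1) / ∑ i, f x i * f x i) • f x) i * f x i -
            ∑ i, |f x i| := by
          simp only [Pi.smul_apply, smul_eq_mul, mul_assoc, ← Finset.mul_sum]
          rw [div_mul_cancel₀ _ hp.ne']
          linarith
        have h3 := eventually_nhdsWithin_iff.1 (hc.eventually (lt_mem_nhds h2))
        have h4 : ∀ᶠ y in 𝓝 x, ‖y‖ < R + 1 := continuous_norm.continuousAt.eventually
          (gt_mem_nhds (by linarith [mem_ball_zero_iff.1 (hR hx)]))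
        filter_upwards [h3, h4] with y hy hy'
        exact ⟨fun hN => sub_pos.1 (hy hN), fun h => absurd h (not_le.2 hy')⟩
      · refine ⟨0, ?_⟩
        filter_upwards [hN.isClosed.isOpen_compl.mem_nhds hx] with y hy
        exact ⟨fun h => absurd h hy, fun _ => rfl⟩
  have h1 : ContDiff ℝ 1 g := g.contMDiff.contDiff
  refine ⟨g, ⟨h1, ContDiff.lipschitzWith_of_hasCompactSupport (HasCompactSupport.intro
    (isCompact_closedBall 0 (R + 1)) fun x hx => (hg x).2 ?_) h1 one_ne_zero⟩,
    fun x hx => (hg x).1 hx⟩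
  exact le_of_lt (by simpa using hx)

theorem dI_def (g : E d → E d) (U : Set (E d)) :
    dI (ga d) g U = ∫ x in U, Ga (g x) * (fderiv ℝ g x).det := rfl

theorem dI_sub {g : E d → E d} {U K : Set (E d)} (hU : MeasurableSet U) (hK : K ⊆ U)
    (h : ∀ x ∈ U, x ∉ K → Ga (g x) = 0) : dI (ga d) g U = dI (ga d) g K := by
  rw [dI_def, dI_def]
  exact setIntegral_eq_of_subset_of_forall_sdiff_eq_zero hU hK fun x hx => by
    rw [h x hx.1 hx.2, zero_mul]

theorem dI_union {g : E d → E d} (hg : Gd g) {U U' : Set (E d)} (hU : IsCompact (closure U))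
    (hU' : IsCompact (closure U')) (hm : MeasurableSet U') (hd : Disjoint U U') :
    dI (ga d) g (U ∪ U') = dI (ga d) g U + dI (ga d) g U' := by
  have hc : Continuous fun x => Ga (g x) * (fderiv ℝ g x).det :=
    (Ga_cont.comp hg.1.continuous).mul
      (ContinuousLinearMap.continuous_det.comp (hg.1.continuous_fderiv one_ne_zero))
  rw [dI_def, dI_def, dI_def]
  exact setIntegral_union hd hm
    ((hc.continuousOn.integrableOn_compact hU).mono_set subset_closure)
    ((hc.continuousOn.integrableOn_compact hU').mono_set subset_closure)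

theorem dI_hom {f g₀ g₁ : E d → E d} (h₀ : Gd g₀) (h₁ : Gd g₁) {U K : Set (E d)} (hU : IsOpen U)
    (hc : IsCompact (closure U)) (hK : IsClosed K) (hKU : K ⊆ U)
    (h : ∀ x ∈ U, x ∉ K → f x ≠ 0 ∧ g₀ x ∈ hs (f x) ∧ g₁ x ∈ hs (f x)) :
    dI (ga d) g₀ U = dI (ga d) g₁ U := by
  obtain ⟨η, η1, η0, hη⟩ := exists_contMDiffMap_one_nhds_of_subset_interior (n := 1) 𝓘(ℝ, E d) hK
    (hKU.trans hU.interior_eq.ge)
  have hs1 : ContDiff ℝ 1 fun x => η x • (g₁ x - g₀ x) :=
    η.contMDiff.contDiff.smul (h₁.1.sub h₀.1)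
  obtain ⟨N, hN⟩ := ContDiff.lipschitzWith_of_hasCompactSupport (HasCompactSupport.intro hc
    fun x hx => by rw [η0 x fun h => hx (subset_closure h), zero_smul]) hs1 one_ne_zero
  obtain ⟨K₀, hK₀⟩ := h₀.2
  obtain ⟨L, hL⟩ := Pool.Agent.MP_57541a_gt.H14.lip_prim (dens (d := d))
  let G : E d → E d := fun x => g₀ x + η x • (g₁ x - g₀ x)
  have hG : LipschitzWith (K₀ + N) G := hK₀.add hN
  have e1 : dI (ga d) g₀ U = dI (ga d) G U := by
    rw [Pool.Agent.MP_57541a_gt.H14.dI_eq dens hK₀, Pool.Agent.MP_57541a_gt.H14.dI_eq dens hG]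
    refine Pool.Agent.MP_57541a_gt.H19.null d _ _ (L * (K₀ + N)) _
      (hL.comp (hK₀.weaken le_self_add)) (hL.comp hG) hU.measurableSet
      (hc.isBounded.subset subset_closure) fun x hx => ?_
    simp only [Function.comp, G, η0 x hx, zero_smul, add_zero]
  rw [e1, dI_def, dI_def]
  refine setIntegral_congr_fun hU.measurableSet fun x hx => ?_
  by_cases hx' : x ∈ K
  · have e : G =ᶠ[𝓝 x] g₁ := by
      filter_upwards [η1.filter_mono (nhds_le_nhdsSet hx')] with y hy
      simp only [G, hy, one_smul, add_sub_cancel]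
    simp only [e.eq_of_nhds, e.fderiv_eq]
  · obtain ⟨a0, a1, a2⟩ := h x hx hx'
    have a3 := hs_conv (f x) a1 a2 (sub_nonneg.2 (hη x).2) (hη x).1 (sub_add_cancel _ _)
    rw [show (1 - η x) • g₀ x + η x • g₁ x = G x by simp only [G]; module] at a3
    simp only [hs_zero a0 a3, hs_zero a0 a2, zero_mul]

theorem dI_aff (B : E d →L[ℝ] E d) (hB : B.det ≠ 0) (z : E d) :
    dI (ga d) (fun x => B (x - z)) univ = SignType.sign B.det * ∫ y : E d, Ga y := by
  have h1 : ∀ x, fderiv ℝ (fun x => B (x - z)) x = B := fun x =>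
    (B.hasFDerivAt.comp x ((hasFDerivAt_id x).sub_const z)).fderiv.trans (B.comp_id)
  rw [dI_def, Measure.restrict_univ]
  simp only [h1]
  rw [integral_mul_const, integral_sub_right_eq_self (fun x => Ga (B x)) z]
  have h2 := Measure.map_linearMap_addHaar_eq_smul_addHaar (volume : Measure (E d))
    (f := (B : E d →ₗ[ℝ] E d)) hB
  have h3 : ∫ x, Ga (B x) = ∫ y, Ga y ∂(Measure.map (B : E d →ₗ[ℝ] E d) volume) :=
    (integral_map B.continuous.measurable.aemeasurable Ga_cont.aestronglyMeasurable).symm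
  rw [h3, h2, integral_smul_measure, ENNReal.toReal_ofReal (abs_nonneg _), smul_eq_mul,
    mul_right_comm]
  congr 1
  change |(B.det)⁻¹| * B.det = _
  rcases hB.lt_or_gt with h | h
  · rw [abs_of_neg (inv_lt_zero.2 h), sign_neg h, neg_mul, inv_mul_cancel₀ hB]
    simp
  · rw [abs_of_pos (inv_pos.2 h), sign_pos h, inv_mul_cancel₀ hB]
    simp

end Pool.Agent.MP_826def_gt.BE34
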