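import Pool.Agent.MP_826def_gt.BE34.DegA
import Pool.Agent.MP_826def_gt.MU.Alg

/-! The Brouwer degree in coordinates. -/

namespace Pool.Agent.MP_826def_gt.BE34

open MeasureTheory Metric Set Filter Pool.Agent.MP_57541a_gt.H20 Pool.Agent.MP_826def_gt.MU
open scoped NNReal Topology

variable {d : ℕ} {f g g' : E d → E d} {Ω U K U' K' : Set (E d)}

/-- Data adapted to a map. -/
structure Ad (f : E d → E d) (Ω U K : Set (E d)) (g : E d → E d) : Prop where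
  op : IsOpen U
  cp : IsCompact (closure U)
  sub : closure U ⊆ Ω
  cl : IsClosed K
  ku : K ⊆ U
  zk : ∀ x ∈ Ω, f x = 0 → x ∈ K
  gd : Gd g
  dir : ∀ x ∈ U, x ∉ K → g x ∈ hs (f x)

theorem Ad.ne (h : Ad f Ω U K g) {x : E d} (hx : x ∈ U) (hk : x ∉ K) : f x ≠ 0 := fun e =>
  hk (h.zk x (h.sub (subset_closure hx)) e)

theorem Ad.uniq (hf : Adm f Ω) (h : Ad f Ω U K g) (h' : Ad f Ω U' K' g') :
    dI (ga d) g U = dI (ga d) g' U' := by
  obtain ⟨L, hL, hZ, hLU⟩ := exists_compact_between hf.2.2 (h.op.inter h'.op)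
    fun x hx => ⟨h.ku (h.zk x hx.1 hx.2), h'.ku (h'.zk x hx.1 hx.2)⟩
  have hs' : (closure U ∪ closure U') \ interior L ⊆ Ω := fun x hx => hx.1.elim (h.sub ·) (h'.sub ·)
  obtain ⟨k, hk, hk'⟩ := ex_g ((h.cp.union h'.cp).diff isOpen_interior) (hf.2.1.mono hs')
    fun x hx e => hx.2 (hZ ⟨hs' hx, e⟩)
  have key : ∀ {U₁ K₁ : Set (E d)} {g₁ : E d → E d}, Ad f Ω U₁ K₁ g₁ → L ⊆ U₁ →
      U₁ ⊆ closure U ∪ closure U' → dI (ga d) g₁ U₁ = dI (ga d) k L := by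
    intro U₁ K₁ g₁ h₁ hLU₁ hU₁
    have a : ∀ x ∈ U₁, x ∉ L → f x ≠ 0 ∧ k x ∈ hs (f x) := fun x hx hx' =>
      have hN : x ∈ (closure U ∪ closure U') \ interior L :=
        ⟨hU₁ hx, fun h => hx' (interior_subset h)⟩
      ⟨fun e => hN.2 (hZ ⟨hs' hN, e⟩), (hk' x hN).le⟩
    rw [dI_hom (f := f) h₁.gd hk h₁.op h₁.cp (h₁.cl.union hL.isClosed) (union_subset h₁.ku hLU₁)
      fun x hx hx' => ⟨h₁.ne hx fun h => hx' (Or.inl h), h₁.dir x hx fun h => hx' (Or.inl h),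
        (a x hx fun h => hx' (Or.inr h)).2⟩]
    exact dI_sub h₁.op.measurableSet hLU₁ fun x hx hx' => hs_zero (a x hx hx').1 (a x hx hx').2
  rw [key h (fun x hx => (hLU hx).1) fun x hx => Or.inl (subset_closure hx),
    key h' (fun x hx => (hLU hx).2) fun x hx => Or.inr (subset_closure hx)]

/-- The degree, up to a constant factor. -/
noncomputable def D0 (f : E d → E d) (Ω : Set (E d)) : ℝ :=
  sInf {c | ∃ U K g, Ad f Ω U K g ∧ c = dI (ga d) g U}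

theorem D0_eq (hf : Adm f Ω) (h : Ad f Ω U K g) : D0 f Ω = dI (ga d) g U := by
  have e : {c | ∃ U K g, Ad f Ω U K g ∧ c = dI (ga d) g U} = {dI (ga d) g U} := by
    ext c
    exact ⟨fun ⟨_, _, _, h', e⟩ => e.trans (h'.uniq hf h), fun e => ⟨U, K, g, h, e⟩⟩
  rw [D0, e, csInf_singleton]

theorem Ad.congr {f' : E d → E d} (h : Ad f Ω U K g) (e : EqOn f f' Ω) : Ad f' Ω U K g :=
  ⟨h.op, h.cp, h.sub, h.cl, h.ku, fun x hx h0 => h.zk x hx ((e hx).trans h0), h.gd,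
    fun x hx hk => e (h.sub (subset_closure hx)) ▸ h.dir x hx hk⟩

theorem D0_congr {f' : E d → E d} (e : EqOn f f' Ω) : D0 f Ω = D0 f' Ω := by
  unfold D0
  congr 1
  ext c
  exact ⟨fun ⟨U, K, g, h, e'⟩ => ⟨U, K, g, h.congr e, e'⟩,
    fun ⟨U, K, g, h, e'⟩ => ⟨U, K, g, h.congr e.symm, e'⟩⟩

theorem ex_UK (hf : Adm f Ω) : ∃ U K : Set (E d), IsOpen U ∧ IsCompact (closure U) ∧
    closure U ⊆ Ω ∧ IsClosed K ∧ K ⊆ U ∧ ∀ x ∈ Ω, f x = 0 → x ∈ interior K := by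
  obtain ⟨K, hK, hZ, hKΩ⟩ := exists_compact_between hf.2.2 hf.1 fun x hx => hx.1
  obtain ⟨U, hU, hKU, hUΩ, hc⟩ := exists_open_between_and_isCompact_closure hK hf.1 hKΩ
  exact ⟨U, K, hU, hc, hUΩ, hK.isClosed, hKU, fun x hx e => hZ ⟨hx, e⟩⟩

theorem D0_add {Ω₁ Ω₂ : Set (E d)} (hf : Adm f Ω) (o₁ : IsOpen Ω₁) (o₂ : IsOpen Ω₂)
    (hd : Disjoint Ω₁ Ω₂) (s₁ : Ω₁ ⊆ Ω) (s₂ : Ω₂ ⊆ Ω) (hz : ∀ x ∈ Ω, f x = 0 → x ∈ Ω₁ ∪ Ω₂) :
    D0 f Ω = D0 f Ω₁ + D0 f Ω₂ := by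
  have a : ∀ {A B : Set (E d)}, IsOpen A → IsOpen B → Disjoint A B → A ⊆ Ω →
      (∀ x ∈ Ω, f x = 0 → x ∈ A ∨ x ∈ B) → Adm f A := by
    intro A B hA hB hAB hs hz
    refine ⟨hA, hf.2.1.mono hs, ?_⟩
    have e : {x | x ∈ A ∧ f x = 0} = {x | x ∈ Ω ∧ f x = 0} \ B := by
      ext x
      exact ⟨fun h => ⟨⟨hs h.1, h.2⟩, disjoint_left.1 hAB h.1⟩,
        fun h => ⟨(hz x h.1.1 h.1.2).resolve_right h.2, h.1.2⟩⟩
    rw [e]
    exact hf.2.2.diff hB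
  have a₁ := a o₁ o₂ hd s₁ hz
  have a₂ := a o₂ o₁ hd.symm s₂ fun x hx e => (hz x hx e).symm
  obtain ⟨U₁, K₁, u₁, c₁, t₁, k₁, j₁, z₁⟩ := ex_UK a₁
  obtain ⟨U₂, K₂, u₂, c₂, t₂, k₂, j₂, z₂⟩ := ex_UK a₂
  obtain ⟨g, hg, hg'⟩ := ex_g ((c₁.diff (isOpen_interior (s := K₁))).union
      (c₂.diff (isOpen_interior (s := K₂))))
    (hf.2.1.mono fun x hx => hx.elim (fun h => s₁ (t₁ h.1)) fun h => s₂ (t₂ h.1))
    fun x hx e => hx.elim (fun h => h.2 (z₁ x (t₁ h.1) e)) fun h => h.2 (z₂ x (t₂ h.1) e)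
  have d₁ : ∀ x ∈ U₁, x ∉ K₁ → g x ∈ hs (f x) := fun x hx hk =>
    (hg' x (Or.inl ⟨subset_closure hx, fun h => hk (interior_subset h)⟩)).le
  have d₂ : ∀ x ∈ U₂, x ∉ K₂ → g x ∈ hs (f x) := fun x hx hk =>
    (hg' x (Or.inr ⟨subset_closure hx, fun h => hk (interior_subset h)⟩)).le
  rw [D0_eq a₁ ⟨u₁, c₁, t₁, k₁, j₁, fun x hx e => interior_subset (z₁ x hx e), hg, d₁⟩,
    D0_eq a₂ ⟨u₂, c₂, t₂, k₂, j₂, fun x hx e => interior_subset (z₂ x hx e), hg, d₂⟩,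
    ← dI_union hg c₁ c₂ u₂.measurableSet
      (hd.mono (subset_closure.trans t₁) (subset_closure.trans t₂))]
  exact D0_eq (K := K₁ ∪ K₂) hf ⟨u₁.union u₂, by rw [closure_union]; exact c₁.union c₂,
    by rw [closure_union]; exact union_subset (t₁.trans s₁) (t₂.trans s₂), k₁.union k₂,
    union_subset_union j₁ j₂,
    fun x hx e => (hz x hx e).imp (fun h => interior_subset (z₁ x h e))
      fun h => interior_subset (z₂ x h e), hg,
    fun x hx hk => hx.elim (fun h => d₁ x h fun h => hk (Or.inl h))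
      fun h => d₂ x h fun h => hk (Or.inr h)⟩

theorem D0_zero (hf : Adm f Ω) (h : ∀ x ∈ Ω, f x ≠ 0) : D0 f Ω = 0 := by
  rw [D0_eq (U := ∅) (K := ∅) (g := fun _ => 0) hf ⟨isOpen_empty, by simp, by simp, isClosed_empty,
    Subset.rfl, fun x hx e => h x hx e, ⟨contDiff_const, 0, LipschitzWith.const _⟩,
    fun x hx => hx.elim⟩, dI_def, setIntegral_empty]

theorem D0_hom (G : ℝ × E d → E d) (O : Set (ℝ × E d)) (hO : IsOpen O) (hG : ContinuousOn G O)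
    (hZ : IsCompact {z | z ∈ O ∧ z.1 ∈ Icc (0 : ℝ) 1 ∧ G z = 0}) :
    D0 (fun x => G (0, x)) {x | (0, x) ∈ O} = D0 (fun x => G (1, x)) {x | (1, x) ∈ O} := by
  have adm : ∀ t ∈ Icc (0 : ℝ) 1, Adm (fun x => G (t, x)) {x | (t, x) ∈ O} := by
    intro t ht
    refine ⟨hO.preimage (Continuous.prodMk_right t),
      hG.comp (Continuous.prodMk_right t).continuousOn fun x hx => hx, ?_⟩
    have e : {x | x ∈ {x | (t, x) ∈ O} ∧ G (t, x) = 0} =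
        Prod.snd '' ({z | z ∈ O ∧ z.1 ∈ Icc (0 : ℝ) 1 ∧ G z = 0} ∩ Prod.fst ⁻¹' {t}) := by
      ext x
      refine ⟨fun h => ⟨(t, x), ⟨⟨h.1, ht, h.2⟩, rfl⟩, rfl⟩, ?_⟩
      rintro ⟨⟨s, y⟩, ⟨h, rfl⟩, rfl⟩
      exact ⟨h.1, h.2.2⟩
    rw [e]
    exact (hZ.inter_right (isClosed_singleton.preimage continuous_fst)).image continuous_snd
  have loc : IsLocallyConstant fun t : Icc (0 : ℝ) 1 =>
      D0 (fun x => G (t, x)) {x | ((t : ℝ), x) ∈ O} := by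
    refine (IsLocallyConstant.iff_eventually_eq _).2 fun t₀ => ?_
    obtain ⟨U, K, u, c, s, k, j, z⟩ := ex_UK (adm t₀ t₀.2)
    obtain ⟨g, hg, hg'⟩ := ex_g (c.diff (isOpen_interior (s := K)))
      ((adm t₀ t₀.2).2.1.mono fun x hx => s hx.1) fun x hx e => hx.2 (z x (s hx.1) e)
    have e1 : ∀ᶠ t in 𝓝 (t₀ : ℝ), ∀ x ∈ closure U, (t, x) ∈ O :=
      c.eventually_forall_of_forall_eventually fun x hx => hO.mem_nhds (s hx)
    have e2 : ∀ᶠ t in 𝓝 (t₀ : ℝ), t ∉ Prod.fst ''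
        ({z | z ∈ O ∧ z.1 ∈ Icc (0 : ℝ) 1 ∧ G z = 0} \ Prod.snd ⁻¹' interior K) := by
      refine ((hZ.diff (isOpen_interior.preimage continuous_snd)).image
        continuous_fst).isClosed.isOpen_compl.mem_nhds ?_
      rintro ⟨⟨t, x⟩, h, e⟩
      obtain rfl : t = t₀ := e
      exact h.2 (z x h.1.1 h.1.2.2)
    have e3 : ∀ᶠ t in 𝓝 (t₀ : ℝ), ∀ x ∈ closure U \ interior K,
        ∑ i, |G (t, x) i| < ∑ i, g x i * G (t, x) i := by
      refine (c.diff isOpen_interior).eventually_forall_of_forall_eventually fun x hx => ?_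
      have h1 : ∀ i, ContinuousAt (fun w => G w i) ((t₀ : ℝ), x) := fun i =>
        (continuous_apply i).continuousAt.comp (hG.continuousAt (hO.mem_nhds (s hx.1)))
      have h2 : ∀ i, ContinuousAt (fun w : ℝ × E d => g w.2 i) ((t₀ : ℝ), x) := fun i =>
        ((continuous_apply i).comp (hg.1.continuous.comp continuous_snd)).continuousAt
      exact ContinuousAt.eventually_lt (tendsto_finsetSum _ fun i _ => (h1 i).abs)
        (tendsto_finsetSum _ fun i _ => (h2 i).mul (h1 i)) (hg' x hx)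
    have e4 : ∀ᶠ t : Icc (0 : ℝ) 1 in 𝓝 t₀,
        D0 (fun x => G (t, x)) {x | ((t : ℝ), x) ∈ O} = dI (ga d) g U := by
      filter_upwards [continuous_subtype_val.continuousAt.eventually (e1.and (e2.and e3))]
        with t ht
      refine D0_eq (K := K) (adm t t.2) ⟨u, c, ht.1, k, j, fun x hx e => ?_, hg,
        fun x hx hk => (ht.2.2 x ⟨subset_closure hx, fun h => hk (interior_subset h)⟩).le⟩
      by_contra hk
      exact ht.2.1 ⟨(t, x), ⟨⟨hx, t.2, e⟩, fun h => hk (interior_subset h)⟩, rfl⟩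
    filter_upwards [e4] with t ht
    rw [ht, e4.self_of_nhds]
  exact loc.apply_eq_of_preconnectedSpace ⟨0, left_mem_Icc.2 zero_le_one⟩
    ⟨1, right_mem_Icc.2 zero_le_one⟩

end Pool.Agent.MP_826def_gt.BE34
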