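import Pool.Agent.MP_826def_gt.MU.Spec
import Pool.Agent.MP_826def_gt.BE.GL
import Pool.Agent.MP_826def_gt.BE.Ld
import Pool.Agent.MP_826def_gt.BE.B

/-! A cocycle with a single nondegenerate zero represents `1` or `-1`. -/

namespace Pool.Agent.MP_826def_gt.BE34

open Set Topology Filter Metric Pool.Agent.MP_826def_gt.MU

noncomputable section

/-- The cocycle of a self map of a vector space. -/
abbrev lin (V : FD) (O : Set V) (f : V → V) : Raw Unit :=
  ⟨V, V, {z | z.2 ∈ O}, fun _ => ContinuousLinearMap.id ℂ V, fun z => f z.2⟩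

theorem lin_good {V : FD} {O : Set V} {f : V → V} {z : V} (hO : IsOpen O) (hf : ContinuousOn f O)
    (hz : ∀ x, x ∈ O ∧ f x = 0 ↔ x = z) : (lin V O f).Good := by
  refine ⟨hO.preimage continuous_snd, continuousOn_const,
    hf.comp continuous_snd.continuousOn fun _ h => h, fun _ _ => rfl, fun _ _ => rfl, ?_⟩
  have e : (lin V O f).Z = {((), z)} := Set.ext fun w =>
    (hz w.2).trans ⟨fun h => Prod.ext rfl h, fun h => congrArg Prod.snd h⟩
  rw [e]
  exact isCompact_singleton

variable [C : Fact Core]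

theorem lin_htpy {V : FD} {O K : Set V} {f g : V → V} (F : unitInterval × V → V) (hO : IsOpen O)
    (hF : ContinuousOn F (Prod.snd ⁻¹' O)) (hK : IsCompact K) (hKO : K ⊆ O)
    (hz : ∀ t, ∀ x ∈ O, F (t, x) = 0 → x ∈ K) (h0 : ∀ x, F (0, x) = f x)
    (h1 : ∀ x, F (1, x) = g x) : cls (lin V O f) = cls (lin V O g) := by
  obtain rfl : (fun x => F (0, x)) = f := funext h0
  obtain rfl : (fun x => F (1, x)) = g := funext h1
  let c : Raw (Unit × unitInterval) :=
    ⟨V, V, {z | z.2 ∈ O}, fun _ => ContinuousLinearMap.id ℂ V, fun z => F (z.1.2, z.2)⟩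
  have hc : ContinuousOn (fun z : (Unit × unitInterval) × V => F (z.1.2, z.2)) {z | z.2 ∈ O} :=
    hF.comp (by fun_prop) fun _ h => h
  have hg : c.Good := by
    refine ⟨hO.preimage continuous_snd, continuousOn_const, hc, fun _ _ => rfl, fun _ _ => rfl, ?_⟩
    have e : c.Z = {z | z ∈ univ ×ˢ K ∧ F (z.1.2, z.2) = 0} := Set.ext fun w =>
      ⟨fun h => ⟨⟨trivial, hz _ _ h.1 h.2⟩, h.2⟩, fun h => ⟨hKO h.1.2, h.2⟩⟩
    rw [e]
    exact BE.cpt_zero (isCompact_univ.prod hK) (hc.mono fun w hw => hKO hw.2)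
  exact cls_move (C.out.good1.pull hg (Continuous.prodMk_left 0).isProperMap)
    (C.out.good1.pull hg (Continuous.prodMk_left 1).isProperMap) (Move.htpy c hg)

omit C in
theorem inj_of_det {V : FD} {A : V →L[ℝ] V} (h : A.det ≠ 0) {x : V} (e : A x = 0) : x = 0 := by
  have := BE.fdR V
  by_contra hx
  exact h (LinearMap.det_eq_zero_iff_ker_ne_bot.2 ((Submodule.ne_bot_iff _).2 ⟨x, e, hx⟩))

omit C in
theorem lin_good' {V : FD} {A : V →L[ℝ] V} (h : A.det ≠ 0) : (lin V univ A).Good :=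
  lin_good (z := 0) isOpen_univ A.continuous.continuousOn fun _ =>
    ⟨fun e => inj_of_det h e.2, fun e => ⟨trivial, e ▸ map_zero A⟩⟩

theorem lin_join {V : FD} {A B : V →L[ℝ] V} (h : 0 < A.det * B.det) :
    cls (lin V univ A) = cls (lin V univ B) := by
  have := BE.fdR V
  obtain ⟨γ, hγ⟩ := BE.sGL V A B h
  exact lin_htpy (K := {0}) (fun w => γ w.1 w.2) isOpen_univ
    ((γ.continuous.comp continuous_fst).clm_apply continuous_snd).continuousOn isCompact_singleton
    (subset_univ _) (fun t x _ e => inj_of_det (hγ t) e) (fun x => by rw [γ.source])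
    fun x => by rw [γ.target]

theorem lin_id (V : FD) : cls (lin V univ (ContinuousLinearMap.id ℝ V)) = 1 := by
  have h1 := C.out.good1.one Unit
  have h2 := C.out.good1.stab V h1
  rw [one_def, cls_move h1 h2 (Move.stab _ V)]
  refine C.out.eqv _ ((Raw.one Unit).stab V) (ContinuousLinearEquiv.uniqueProd ℂ V Unit) univ
    (fun _ => ContinuousLinearMap.inr ℂ Unit V) (fun _ => ContinuousLinearMap.snd ℂ Unit V)
    (lin_good' (by rw [ContinuousLinearMap.det, ContinuousLinearMap.coe_id, LinearMap.det_id]; simp))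
    h2 isOpen_univ (subset_univ _) (fun _ _ => trivial) continuousOn_const continuousOn_const
    fun z _ => ⟨trivial, trivial, rfl, ContinuousLinearMap.ext fun _ => rfl, rfl⟩

theorem lin_neg {V : FD} {A : V →L[ℝ] V} (h : A.det < 0) : cls (lin V univ A) = -1 := by
  have := BE.fdR V
  obtain ⟨n, hn⟩ : ∃ n, V.dim = n + 1 := Nat.exists_eq_succ_of_ne_zero fun h0 => by
    have h1 : A.det = 1 := LinearMap.det_eq_one_of_finrank_eq_zero
      (by rw [BE.rkR V]; exact mul_eq_zero_of_right _ h0) _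
    linarith
  let e : V ≃L[ℂ] ℂ × (Fin n → ℂ) := ContinuousLinearEquiv.ofFinrankEq (by
    rw [Module.finrank_prod, Module.finrank_self, Module.finrank_fin_fun, add_comm]
    exact hn)
  let R₀ : (ℂ × (Fin n → ℂ)) →L[ℝ] ℂ × (Fin n → ℂ) :=
    (Complex.conjCLE : ℂ →L[ℝ] ℂ).prodMap (ContinuousLinearMap.id ℝ _)
  let R : V →L[ℝ] V := (e.symm.toContinuousLinearMap.restrictScalars ℝ).comp
    (R₀.comp (e.toContinuousLinearMap.restrictScalars ℝ))
  have d0 : R₀.det = -1 := by
    have h1 : R₀.det = LinearMap.det (LinearMap.prodMap Complex.conjAe.toLinearMap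
        (LinearMap.id : (Fin n → ℂ) →ₗ[ℝ] Fin n → ℂ)) := rfl
    rw [h1, LinearMap.det_prodMap, Complex.det_conjAe, LinearMap.det_id, mul_one]
  have d1 : R.det = -1 :=
    (LinearMap.det_conj R₀.toLinearMap (e.symm.toLinearEquiv.restrictScalars ℝ)).trans d0
  have h1 := C.out.good1.eps
  have h2 := C.out.good1.stab (FD.std n) h1
  have h3 : cls Raw.eps = (-1 : UU) := eq_neg_of_add_eq_zero_left C.out.eps
  rw [lin_join (B := R) (by rw [d1]; linarith), ← h3, cls_move h1 h2 (Move.stab _ _)]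
  refine C.out.eqv _ (Raw.eps.stab (FD.std n)) e.symm univ (fun _ => e.toContinuousLinearMap)
    (fun _ => e.symm.toContinuousLinearMap) (lin_good' (by rw [d1]; norm_num)) h2 isOpen_univ
    (subset_univ _) (fun _ _ => trivial) continuousOn_const continuousOn_const
    fun z _ => ⟨trivial, trivial, ContinuousLinearMap.ext e.symm_apply_apply,
      ContinuousLinearMap.ext e.apply_symm_apply, ?_⟩
  exact (e.apply_symm_apply _).trans (congrArg R₀ (e.apply_symm_apply z.2))

theorem lin_loc {V : FD} {O : Set V} {f : V → V} {z : V} {A : V →L[ℝ] V} (hO : IsOpen O)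
    (hf : ContinuousOn f O) (hz : ∀ x, x ∈ O ∧ f x = 0 ↔ x = z) (hA : HasFDerivAt f A z)
    (hd : A.det ≠ 0) : cls (lin V O f) = cls (lin V univ A) := by
  have := BE.fdR V
  obtain ⟨zO, z0⟩ := (hz z).2 rfl
  obtain ⟨K, K0, hK⟩ := (A : V →ₗ[ℝ] V).exists_antilipschitzWith
    (LinearMap.ker_eq_bot'.2 fun x e => inj_of_det hd e)
  have K0' : (0 : ℝ) < K := K0
  have hK' : ∀ v, ‖v‖ ≤ K * ‖A v‖ := fun v => by simpa using hK.le_mul_dist v 0
  obtain ⟨ρ, ρ0, hρ⟩ := nhds_basis_ball.mem_iff.1 (inter_mem (hO.mem_nhds zO)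
    (hA.isLittleO.def (c := (2 * K : ℝ)⁻¹) (by positivity)))
  have hs : ball z ρ ⊆ O := fun x hx => (hρ hx).1
  have g1 := lin_good isOpen_ball (hf.mono hs) (z := z) fun x =>
    ⟨fun h => (hz x).1 ⟨hs h.1, h.2⟩, fun h => by rw [h]; exact ⟨mem_ball_self ρ0, z0⟩⟩
  have ha : Continuous fun x => A (x - z) := by fun_prop
  have g2 := lin_good (O := ball z ρ) isOpen_ball ha.continuousOn (z := z) fun x =>
    ⟨fun h => sub_eq_zero.1 (inj_of_det hd h.2),
      fun h => h ▸ ⟨mem_ball_self ρ0, by rw [sub_self, map_zero]⟩⟩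
  have g3 := lin_good (O := univ) isOpen_univ ha.continuousOn (z := z) fun x =>
    ⟨fun h => sub_eq_zero.1 (inj_of_det hd h.2), fun h => h ▸ ⟨trivial, by rw [sub_self, map_zero]⟩⟩
  have e1 : cls (lin V O f) = cls (lin V (ball z ρ) f) :=
    cls_move (lin_good hO hf hz) g1 (Move.germ (lin V O f) _ _ _ (fun w hw => hs hw)
      (fun _ _ => rfl) (fun _ _ => rfl) fun w hw => by
        change w.2 ∈ ball z ρ
        rw [(hz w.2).1 hw]
        exact mem_ball_self ρ0)
  have e2 : cls (lin V univ fun x => A (x - z)) = cls (lin V (ball z ρ) fun x => A (x - z)) :=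
    cls_move g3 g2 (Move.germ (lin V univ fun x => A (x - z)) _ _ _ (fun _ _ => trivial)
      (fun _ _ => rfl) (fun _ _ => rfl) fun w hw => by
        change w.2 ∈ ball z ρ
        rw [sub_eq_zero.1 (inj_of_det hd hw.2)]
        exact mem_ball_self ρ0)
  have ht : Continuous fun w : unitInterval × V => 1 - (w.1 : ℝ) := by fun_prop
  rw [e1, lin_htpy (K := {z}) (g := fun x => A (x - z))
    (fun w => A (w.2 - z) + (1 - (w.1 : ℝ)) • (f w.2 - A (w.2 - z))) isOpen_ball
    ((ha.comp continuous_snd).continuousOn.add (ContinuousOn.smul (M := ℝ) ht.continuousOn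
      ((hf.comp continuous_snd.continuousOn fun _ h => hs h).sub
        (ha.comp continuous_snd).continuousOn))) isCompact_singleton
    (singleton_subset_iff.2 (mem_ball_self ρ0)) (fun t x hx e => ?_) (fun x => by simp)
    (fun x => by simp), ← e2]
  · refine lin_htpy (K := closedBall 0 ‖z‖) (fun w => A (w.2 - (1 - (w.1 : ℝ)) • z)) isOpen_univ
      (by fun_prop) (isCompact_closedBall _ _) (subset_univ _) (fun t x _ e => ?_)
      (fun x => by simp) fun x => by simp
    rw [show x = (1 - (t : ℝ)) • z from sub_eq_zero.1 (inj_of_det hd e), mem_closedBall_zero_iff,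
      norm_smul,
      Real.norm_of_nonneg (sub_nonneg.2 t.2.2)]
    exact mul_le_of_le_one_left (norm_nonneg _) (sub_le_self _ t.2.1)
  · have a1 : ‖f x - f z - A (x - z)‖ ≤ (2 * K : ℝ)⁻¹ * ‖x - z‖ := (hρ hx).2
    rw [z0, sub_zero, le_inv_mul_iff₀ (by positivity)] at a1
    have a2 : ‖A (x - z)‖ ≤ ‖f x - A (x - z)‖ := by
      conv_lhs => rw [eq_neg_of_add_eq_zero_left e, norm_neg, norm_smul,
        Real.norm_of_nonneg (sub_nonneg.2 t.2.2)]
      exact mul_le_of_le_one_left (norm_nonneg _) (sub_le_self _ t.2.1)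
    have a3 := hK' (x - z)
    have a4 := mul_le_mul_of_nonneg_left a2 K0'.le
    refine sub_eq_zero.1 (norm_le_zero_iff.1 ?_)
    linarith

/-- One nondegenerate zero. -/
theorem point (c : Raw Unit) (hc : c.Good) (z : c.V) (hZ : ∀ v, ((), v) ∈ c.Z ↔ v = z)
    (hn : BE.NiceAt (fun v => c.p ((), v)) (fun v => c.s ((), v)) z)
    (hr : rk (c.p ((), z)) = c.V.dim) : cls c = 1 ∨ cls c = -1 := by
  have hι : Continuous fun v : c.V => ((), v) := by fun_prop
  have hi : ∀ v, ((), v) ∈ c.O → ∀ w, c.p ((), v) (c.p ((), v) w) = c.p ((), v) w := fun v hv w =>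
    congrArg (fun q : c.W →L[ℂ] c.W => q w) (hc.idem _ hv)
  obtain ⟨zO, z0⟩ := (hZ z).2 rfl
  obtain ⟨G, zG, hGO, hG, τ, σ, hτ, hσ, τσ, στ⟩ := BE.sChart c.V c.W c.V {v | ((), v) ∈ c.O}
    (fun v => c.p ((), v)) (hc.op.preimage hι) (hc.cp.comp hι.continuousOn fun _ h => h) hi z zO hr
  obtain ⟨hd, hdet, -⟩ := BE.chart_zero BE.sLd hG hτ (fun x hx => hi x (hGO hx)) στ zG z0 hn
  have hf : ContinuousOn (fun v => τ v (c.s ((), v))) G :=
    hτ.clm_apply (hc.cs.comp hι.continuousOn fun _ h => hGO h)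
  have hz : ∀ x, x ∈ G ∧ τ x (c.s ((), x)) = 0 ↔ x = z := fun x =>
    ⟨fun h => (hZ x).1 ⟨hGO h.1, by rw [← hc.sec _ (hGO h.1), ← στ x h.1, h.2, map_zero]⟩,
      fun h => h ▸ ⟨zG, by rw [z0, map_zero]⟩⟩
  have e : cls c = cls (lin c.V G fun v => τ v (c.s ((), v))) :=
    C.out.eqv c (lin c.V G fun v => τ v (c.s ((), v))) (ContinuousLinearEquiv.refl ℂ _)
      {w | w.2 ∈ G} (fun w => τ w.2) (fun w => σ w.2) hc (lin_good hG hf hz)
      (hG.preimage continuous_snd) (fun _ h => h.1) (fun w hw => by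
        change w.2 ∈ G
        rw [(hZ w.2).1 hw]
        exact zG) (hτ.comp continuous_snd.continuousOn fun _ h => h)
      (hσ.comp continuous_snd.continuousOn fun _ h => h) fun w hw =>
      ⟨hw, hGO hw, ContinuousLinearMap.ext (στ _ hw), ContinuousLinearMap.ext (τσ _ hw), rfl⟩
  rw [e, lin_loc hG hf hz hd.hasFDerivAt hdet]
  rcases hdet.lt_or_gt with h | h
  · exact Or.inr (lin_neg h)
  · refine Or.inl ((lin_join ?_).trans (lin_id _))
    exact mul_pos h (zero_lt_one.trans_eq LinearMap.det_id.symm)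

end

end Pool.Agent.MP_826def_gt.BE34
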